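import Pool.Agent.N819.LT.Par

/-!
# The decompositions and the Alexander polynomial modulo two
-/

set_option autoImplicit false

namespace Pool.Agent.N819.LT

open Pool.Agent.TH625.LOG Finset Polynomial

variable {V E : Type}

open Classical in
/-- The graph with the edges `{ini e, lab e}`, `e ∈ S`, and `{ter e, lab e}`, `e ∉ S`, is connected. -/
def Mixed (L : LOG V E) (S : Set E) : Prop :=
  Conn (fun e => if e ∈ S then L.ini e else L.ter e) L.lab

open Classical in
/-- The Alexander matrix of `L` modulo two, with the additional row `none` which is the unit vector of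
the vertex `r`; the columns are numbered by `σ`. The row of the edge `e` is `1` at its initial vertex,
plus `1 + t` at its label, plus `t` at its terminal vertex. -/
noncomputable def alexM (L : LOG V E) (r : V) (σ : V ≃ Option E) :
    Matrix (Option E) (Option E) (ZMod 2)[X] :=
  fun i j => i.elim (if σ.symm j = r then 1 else 0) fun e =>
    (if σ.symm j = L.ini e then 1 else 0) + (1 + X) * (if σ.symm j = L.lab e then 1 else 0) +
      X * (if σ.symm j = L.ter e then 1 else 0)

open Classical in
theorem coeff_alex [Fintype V] [Fintype E] (L : LOG V E) (r : V) (σ : V ≃ Option E) (j : ℕ) :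
    ((Finset.univ.filter fun o : E → Bool => (Finset.univ.filter fun e => o e = true).card = j ∧
      Conn (fun e => if o e = true then L.ter e else L.ini e) L.lab).card : ZMod 2) =
    (alexM L r σ).det.coeff j := by
  let f : MultilinearMap (ZMod 2)[X] (fun _ : Option E => Option E → (ZMod 2)[X]) (ZMod 2)[X] :=
    (Matrix.detRowAlternating :
      (Option E → (ZMod 2)[X]) [⋀^Option E]→ₗ[(ZMod 2)[X]] (ZMod 2)[X]).toMultilinearMap
  have hf : ∀ M : Matrix (Option E) (Option E) (ZMod 2)[X], f M = M.det := fun M => rfl
  let rw0 : (i : Option E) → Bool → (Option E → ZMod 2) := fun i t =>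
    row r σ i (i.elim (r, r) fun e => (if t = true then L.ter e else L.ini e, L.lab e))
  let cf : (i : Option E) → Bool → (ZMod 2)[X] := fun i t => i.elim 1 fun _ => if t = true then X else 1
  let g : (i : Option E) → Bool → (Option E → (ZMod 2)[X]) := fun i t =>
    cf i t • fun s => C (rw0 i t s)
  let A : Option E → Finset Bool := fun i => i.elim {true} fun _ => univ
  have hsum := f.map_sum_finset g A
  have hleft : (fun i => ∑ t ∈ A i, g i t) = alexM L r σ := by
    funext i s
    cases i with
    | none => simp [A, g, cf, rw0, row, alexM]
    | some e =>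
      simp only [A, g, cf, rw0, Option.elim_some, alexM]
      rw [Fintype.sum_bool]
      simp only [Pi.add_apply, Pi.smul_apply, row, Option.elim_some, if_true, Bool.false_eq_true,
        if_false, smul_eq_mul, map_add, apply_ite (C : ZMod 2 → (ZMod 2)[X]), map_one, map_zero]
      ring
  rw [hleft, hf] at hsum
  have hright : ∀ ρ : Option E → Bool, (f fun i => g i (ρ i)) =
      X ^ (Finset.univ.filter fun e => ρ (some e) = true).card *
        C (mat r σ (fun e => if ρ (some e) = true then L.ter e else L.ini e) L.lab).det := by
    intro ρ
    have h1 : (fun i => g i (ρ i)) =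
        fun i => cf i (ρ i) • (fun s => C (rw0 i (ρ i) s) : Option E → (ZMod 2)[X]) := rfl
    rw [h1, f.map_smul_univ, smul_eq_mul]
    congr 1
    · rw [Fintype.prod_option]
      simp only [cf, Option.elim_none, Option.elim_some, one_mul]
      rw [Finset.prod_ite, Finset.prod_const, Finset.prod_const_one, mul_one]
    · have h2 : (fun i => (fun s => C (rw0 i (ρ i) s) : Option E → (ZMod 2)[X])) =
          ((mat r σ (fun e => if ρ (some e) = true then L.ter e else L.ini e) L.lab).map C) := by
        funext i s
        cases i with
        | none => rfl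
        | some e => rfl
      rw [h2, hf, ← RingHom.mapMatrix_apply, ← RingHom.map_det]
  rw [Finset.sum_congr rfl fun ρ _ => hright ρ] at hsum
  rw [hsum, finset_sum_coeff]
  have hco : ∀ ρ : Option E → Bool, (X ^ (Finset.univ.filter fun e => ρ (some e) = true).card *
        C (mat r σ (fun e => if ρ (some e) = true then L.ter e else L.ini e) L.lab).det :
          (ZMod 2)[X]).coeff j =
      if (Finset.univ.filter fun e => ρ (some e) = true).card = j ∧
        Conn (fun e => if ρ (some e) = true then L.ter e else L.ini e) L.lab then 1 else 0 := by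
    intro ρ
    rw [coeff_mul_C, coeff_X_pow]
    by_cases h1 : (Finset.univ.filter fun e => ρ (some e) = true).card = j
    · rw [if_pos h1.symm, one_mul]
      by_cases h2 : Conn (fun e => if ρ (some e) = true then L.ter e else L.ini e) L.lab
      · rw [if_pos ⟨h1, h2⟩]
        rw [zmod2_eq (Matrix.det _), if_pos ((det_ne_zero_iff r σ _ _).2 h2)]
      · rw [if_neg (fun h => h2 h.2)]
        rw [zmod2_eq (Matrix.det _), if_neg (fun h => h2 ((det_ne_zero_iff r σ _ _).1 h))]
    · rw [if_neg (fun h => h1 h.symm), zero_mul, if_neg (fun h => h1 h.1)]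
  rw [Finset.sum_congr rfl fun ρ _ => hco ρ, Finset.sum_boole]
  congr 1
  refine Finset.card_nbij' (fun o i => i.elim true o) (fun ρ e => ρ (some e)) ?_ ?_ ?_ ?_
  · intro o ho
    simp only [Finset.coe_filter, Set.mem_ofPred_eq, Fintype.mem_piFinset, mem_univ, true_and] at ho ⊢
    refine ⟨fun i => ?_, ho⟩
    cases i with
    | none => simp [A]
    | some e => simp [A]
  · intro ρ hρ
    simp only [Finset.coe_filter, Set.mem_ofPred_eq, Fintype.mem_piFinset, mem_univ, true_and] at hρ ⊢
    exact hρ.2
  · intro o _
    rfl
  · intro ρ hρ
    simp only [Finset.coe_filter, Set.mem_ofPred_eq, Fintype.mem_piFinset] at hρ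
    funext i
    cases i with
    | none =>
      have := hρ.1 none
      simp only [A, Option.elim_none, Finset.mem_singleton] at this
      rw [this]; rfl
    | some e => rfl

end Pool.Agent.N819.LT
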