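import Pool.Agent.TH625.LOG.Main

/-!
# Labelled trees and their orientations
-/

set_option autoImplicit false

namespace Pool.Agent.N819.LT

open Pool.Agent.TH625.LOG

variable {V E : Type}

/-- `x` and `y` are the two ends `p e`, `q e` of an edge `e`. -/
def Joined (p q : E → V) (x y : V) : Prop :=
  ∃ e, (p e = x ∧ q e = y) ∨ (q e = x ∧ p e = y)

/-- The graph with the vertex set `V` whose edges `e : E` join `p e` and `q e` is connected. -/
def Conn (p q : E → V) : Prop := ∀ x y : V, Relation.ReflTransGen (Joined p q) x y

/-- A finite labelled tree: the edge `e` joins `a e` and `b e` and has the label `lab e`, which is any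
vertex; the graph is connected and has one vertex more than edges. -/
structure LTree (V E : Type) [Fintype V] [Fintype E] where
  a : E → V
  b : E → V
  lab : E → V
  conn : Conn a b
  card : Fintype.card V = Fintype.card E + 1

/-- The labelled oriented tree belonging to an orientation `o` of the edges: the edge `e` runs from
`a e` to `b e` if `o e = false`, and from `b e` to `a e` if `o e = true`. -/
def LTree.log [Fintype V] [Fintype E] (x : LTree V E) (o : E → Bool) : LOG V E where
  ini e := if o e = true then x.b e else x.a e
  ter e := if o e = true then x.a e else x.b e
  lab := x.lab

/-- The subgraph with all the vertices and the edges of the set `S`. -/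
def sub (L : LOG V E) (S : Set E) : LOG V S where
  ini e := L.ini e
  ter e := L.ter e
  lab e := L.lab e

end Pool.Agent.N819.LT
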