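import Pool.Agent.N819.LT.Defs

/-!
# Free sides in the coverings of a complex whose initial graph is a forest
-/

set_option autoImplicit false

namespace Pool.Agent.N819.LT

open Pool.Agent.TH625.LOG Finset

variable {V E : Type}

/-- the rooted structure of a tree: the depth of the vertices and the lower end of every edge -/
theorem exists_child [Fintype V] [Fintype E] (p q : E → V) (hc : Conn p q)
    (hcard : Fintype.card V = Fintype.card E + 1) (r : V) :
    ∃ (d : V → ℕ) (ch : E → V), (∀ e, (p e = ch e ∧ d (q e) + 1 = d (ch e)) ∨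
      (q e = ch e ∧ d (p e) + 1 = d (ch e))) ∧ Function.Injective ch ∧ ∀ e, ch e ≠ r := by
  classical
  let G : SimpleGraph V := SimpleGraph.fromRel (Joined p q)
  have hreach : ∀ x y, Relation.ReflTransGen (Joined p q) x y → G.Reachable x y := by
    intro x y h
    induction h with
    | refl => exact SimpleGraph.Reachable.refl _
    | @tail b c _ h1 ih =>
      by_cases hbc : b = c
      · rw [← hbc]; exact ih
      · exact ih.trans (SimpleGraph.Adj.reachable
          ((SimpleGraph.fromRel_adj _ _ _).2 ⟨hbc, Or.inl h1⟩))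
  have hG : ∀ x y, G.Reachable x y := fun x y => hreach x y (hc x y)
  let d : V → ℕ := fun v => G.dist v r
  have hstep : ∀ v : V, v ≠ r → ∃ w, G.Adj v w ∧ d w + 1 = d v := by
    intro v hv
    obtain ⟨w, hw⟩ := (hG v r).exists_walk_length_eq_dist
    cases w with
    | nil => exact absurd rfl hv
    | @cons _ u _ h w' =>
      refine ⟨u, h, ?_⟩
      rw [SimpleGraph.Walk.length_cons] at hw
      have h1 : G.dist u r ≤ w'.length := SimpleGraph.dist_le w'
      have h2 : G.dist v r ≤ G.dist u r + 1 := by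
        obtain ⟨w2, hw2⟩ := (hG u r).exists_walk_length_eq_dist
        have := SimpleGraph.dist_le (SimpleGraph.Walk.cons h w2)
        rw [SimpleGraph.Walk.length_cons, hw2] at this
        exact this
      show G.dist u r + 1 = G.dist v r
      omega
  have hpar : ∀ v : {v : V // v ≠ r}, ∃ e, (p e = v.1 ∧ d (q e) + 1 = d v.1) ∨
      (q e = v.1 ∧ d (p e) + 1 = d v.1) := by
    rintro ⟨v, hv⟩
    obtain ⟨w, h1, h2⟩ := hstep v hv
    obtain ⟨-, ⟨e, h3 | h3⟩ | ⟨e, h3 | h3⟩⟩ := (SimpleGraph.fromRel_adj _ _ _).1 h1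
    · exact ⟨e, Or.inl ⟨h3.1, by rw [h3.2]; exact h2⟩⟩
    · exact ⟨e, Or.inr ⟨h3.1, by rw [h3.2]; exact h2⟩⟩
    · exact ⟨e, Or.inr ⟨h3.2, by rw [h3.1]; exact h2⟩⟩
    · exact ⟨e, Or.inl ⟨h3.2, by rw [h3.1]; exact h2⟩⟩
  choose par hp using hpar
  have hinj : Function.Injective par := by
    intro v w h
    apply Subtype.ext
    have h1 := hp v
    have h2 := hp w
    rw [h] at h1
    rcases h1 with ⟨a1, a2⟩ | ⟨a1, a2⟩ <;> rcases h2 with ⟨b1, b2⟩ | ⟨b1, b2⟩
    · rw [← a1, ← b1]
    · rw [b1] at a2; rw [a1] at b2; omega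
    · rw [b1] at a2; rw [a1] at b2; omega
    · rw [← a1, ← b1]
  have hbij : Function.Bijective par := by
    rw [Fintype.bijective_iff_injective_and_card]
    refine ⟨hinj, ?_⟩
    rw [Fintype.card_subtype_compl, Fintype.card_subtype_eq, hcard]
    omega
  let eqv := Equiv.ofBijective par hbij
  refine ⟨d, fun e => (eqv.symm e).1, fun e => ?_, ?_, fun e => (eqv.symm e).2⟩
  · have h1 := hp (eqv.symm e)
    have h2 : par (eqv.symm e) = e := eqv.apply_symm_apply e
    rw [h2] at h1
    exact h1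
  · intro e e' h
    exact eqv.symm.injective (Subtype.ext h)

/-- Every nonempty finite set of edges of the initial graph (edges `{ini e, lab e}`) has a vertex of
degree one. -/
def Leafy (L : LOG V E) : Prop :=
  ∀ F : Finset E, F.Nonempty → ∃ e ∈ F, ∃ v, (L.ini e = v ∨ L.lab e = v) ∧ L.ini e ≠ L.lab e ∧
    ∀ e' ∈ F, (L.ini e' = v ∨ L.lab e' = v) → e' = e

theorem leafy_of_tree [Fintype V] [Fintype E] (L : LOG V E) (hc : Conn L.ini L.lab)
    (hcard : Fintype.card V = Fintype.card E + 1) : Leafy L := by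
  classical
  have hne : Nonempty V := by
    rw [← Fintype.card_pos_iff, hcard]; omega
  obtain ⟨r⟩ := hne
  obtain ⟨d, ch, h1, h2, -⟩ := exists_child L.ini L.lab hc hcard r
  intro F hF
  obtain ⟨e, he, hmax⟩ := F.exists_max_image (fun e => d (ch e)) hF
  refine ⟨e, he, ch e, ?_, ?_, ?_⟩
  · rcases h1 e with h | h
    · exact Or.inl h.1
    · exact Or.inr h.1
  · intro h3
    rcases h1 e with h | h
    · rw [← h3, h.1] at h; omega
    · rw [h3, h.1] at h; omega
  · intro e' he' h3
    have hm := hmax e' he'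
    rcases h3 with h3 | h3
    · rcases h1 e' with h | h
      · exact h2 (by rw [← h.1, h3])
      · rw [h3] at h; omega
    · rcases h1 e' with h | h
      · rw [h3] at h; omega
      · exact h2 (by rw [← h.1, h3])

theorem Leafy.sub {L : LOG V E} (h : Leafy L) (S : Set E) : Leafy (sub L S) := by
  classical
  intro F hF
  obtain ⟨e, he, v, h1, h2, h3⟩ := h (F.image Subtype.val) (hF.image _)
  obtain ⟨f, hf, rfl⟩ := Finset.mem_image.1 he
  refine ⟨f, hf, v, h1, h2, fun e' he' h4 => ?_⟩
  exact Subtype.ext (h3 e'.1 (Finset.mem_image_of_mem _ he') h4)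

/-- the degree homomorphism: all the generators are mapped to `1` -/
noncomputable def deg (L : LOG V E) : L.G →* Multiplicative ℤ :=
  PresentedGroup.toGroup (f := fun _ => Multiplicative.ofAdd (1 : ℤ)) (by
    rintro _ ⟨e, rfl⟩
    simp only [LOG.rel, map_mul, map_inv, FreeGroup.lift_apply_of]
    group)

theorem deg_gen (L : LOG V E) (v : V) : deg L (L.gen v) = Multiplicative.ofAdd (1 : ℤ) :=
  PresentedGroup.toGroup.of _

/-- If the initial graph is a forest then every nonempty finite set of 2-cells of the covering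
belonging to `ρ` has a free side, provided that the degree homomorphism factors through `ρ`. -/
theorem freeSidesA (L : LOG V E) (hL : Leafy L) {A : Type} [Group A] (ρ : L.G →* A)
    (δ : A →* Multiplicative ℤ) (hδ : ∀ v, δ (ρ (L.gen v)) = Multiplicative.ofAdd (1 : ℤ)) :
    L.FreeSidesA ρ := by
  classical
  intro S hS
  obtain ⟨d0, hd0, hmin⟩ := S.exists_min_image (fun d => Multiplicative.toAdd (δ d.2)) hS
  set a := d0.2 with ha
  set F : Finset E := (S.filter fun d => d.2 = a).image Prod.fst with hF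
  have hFm : ∀ e, e ∈ F ↔ (e, a) ∈ S := by
    intro e
    rw [hF, Finset.mem_image]
    constructor
    · rintro ⟨⟨e1, a1⟩, h1, rfl⟩
      rw [Finset.mem_filter] at h1
      obtain ⟨h1, h2⟩ := h1
      simp only at h2
      rw [← h2]; exact h1
    · intro h
      exact ⟨(e, a), Finset.mem_filter.2 ⟨h, rfl⟩, rfl⟩
  obtain ⟨e, he, v, h1, h2, h3⟩ := hL F ⟨d0.1, (hFm _).2 (by rw [ha]; exact hd0)⟩
  have low : ∀ (a' : A) (u : V), (∃ e', (e', a') ∈ S) → a' * ρ (L.gen u) ≠ a := by
    rintro a' u ⟨e', he'⟩ h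
    have h4 := hmin (e', a') he'
    simp only at h4
    rw [← h, map_mul, hδ, toAdd_mul, toAdd_ofAdd] at h4
    omega
  have key : ∀ d' ∈ S, ∀ k' : Fin 4, L.sideA ρ d' k' = (v, a) →
      d' = (e, a) ∧ ((k' = 0 ∧ L.ini e = v) ∨ (k' = 2 ∧ L.lab e = v)) := by
    rintro ⟨e', a'⟩ hd' k' hk
    fin_cases k'
    · have hk1 : L.ini e' = v := congrArg Prod.fst hk
      have hk2 : a' * ρ 1 = a := congrArg Prod.snd hk
      rw [map_one, mul_one] at hk2
      subst hk2
      have := h3 e' ((hFm _).2 hd') (Or.inl hk1)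
      subst this
      exact ⟨rfl, Or.inl ⟨rfl, hk1⟩⟩
    · exact absurd (congrArg Prod.snd hk) (low a' (L.ini e') ⟨e', hd'⟩)
    · have hk1 : L.lab e' = v := congrArg Prod.fst hk
      have hk2 : a' * ρ 1 = a := congrArg Prod.snd hk
      rw [map_one, mul_one] at hk2
      subst hk2
      have := h3 e' ((hFm _).2 hd') (Or.inr hk1)
      subst this
      exact ⟨rfl, Or.inr ⟨rfl, hk1⟩⟩
    · exact absurd (congrArg Prod.snd hk) (low a' (L.lab e') ⟨e', hd'⟩)
  refine ⟨(e, a), (hFm _).1 he, ?_⟩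
  rcases h1 with h1 | h1
  · refine ⟨0, fun d' hd' k' hk => ?_⟩
    have h4 : L.sideA ρ (e, a) 0 = (v, a) := by
      show (L.ini e, a * ρ 1) = (v, a)
      rw [map_one, mul_one, h1]
    obtain ⟨h5, h6⟩ := key d' hd' k' (hk.trans h4)
    refine ⟨h5, ?_⟩
    rcases h6 with h6 | h6
    · exact h6.1
    · exact absurd (h1.trans h6.2.symm) h2
  · refine ⟨2, fun d' hd' k' hk => ?_⟩
    have h4 : L.sideA ρ (e, a) 2 = (v, a) := by
      show (L.lab e, a * ρ 1) = (v, a)
      rw [map_one, mul_one, h1]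
    obtain ⟨h5, h6⟩ := key d' hd' k' (hk.trans h4)
    refine ⟨h5, ?_⟩
    rcases h6 with h6 | h6
    · exact absurd (h6.2.trans h1.symm) h2
    · exact h6.1

theorem freeSides (L : LOG V E) (hL : Leafy L) : L.FreeSides :=
  freeSidesA L hL (MonoidHom.id L.G) (deg L) fun v => deg_gen L v

theorem locInd_int : LocInd (Multiplicative ℤ) := by
  intro H _ hne
  have h1 : ∃ x ∈ H, x ≠ 1 := by
    by_contra hcon
    push Not at hcon
    exact hne ((Subgroup.eq_bot_iff_forall H).2 hcon)
  obtain ⟨x, hx, hx1⟩ := h1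
  exact surj_of_ne H.subtype ⟨⟨x, hx⟩, hx1⟩

theorem locInd_of_leafy (L : LOG V E) (hL : Leafy L) : LocInd L.G :=
  LocInd.ext locInd_int (deg L) fun H hH hne hk =>
    ker_li L (deg L) (freeSidesA L hL (deg L) (MonoidHom.id _) fun v => deg_gen L v) H hH hk hne

end Pool.Agent.N819.LT
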