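import Pool.Agent.N819.LT.Leaf

/-!
# Free sides in the coverings of a complex whose terminal graph is a forest
-/

set_option autoImplicit false

namespace Pool.Agent.N819.LT

open Pool.Agent.TH625.LOG Finset

variable {V E : Type}

/-- Every nonempty finite set of edges of the terminal graph (edges `{ter e, lab e}`) has a vertex of
degree one. -/
def LeafyT (L : LOG V E) : Prop :=
  ∀ F : Finset E, F.Nonempty → ∃ e ∈ F, ∃ v, (L.ter e = v ∨ L.lab e = v) ∧ L.ter e ≠ L.lab e ∧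
    ∀ e' ∈ F, (L.ter e' = v ∨ L.lab e' = v) → e' = e

/-- If the terminal graph is a forest then every nonempty finite set of 2-cells of the covering
belonging to `ρ` has a free side, provided that the degree homomorphism factors through `ρ`. -/
theorem freeSidesAT (L : LOG V E) (hL : LeafyT L) {A : Type} [Group A] (ρ : L.G →* A)
    (δ : A →* Multiplicative ℤ) (hδ : ∀ v, δ (ρ (L.gen v)) = Multiplicative.ofAdd (1 : ℤ)) :
    L.FreeSidesA ρ := by
  classical
  intro S hS
  obtain ⟨d0, hd0, hmax⟩ := S.exists_max_image (fun d => Multiplicative.toAdd (δ d.2)) hS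
  let top : E × A → A := fun d => d.2 * ρ (L.gen (L.ini d.1)) * ρ (L.gen (L.lab d.1))
  have htop' : ∀ d : E × A, top d = d.2 * ρ (L.gen (L.lab d.1)) * ρ (L.gen (L.ter d.1)) := by
    intro d
    show d.2 * ρ (L.gen (L.ini d.1)) * ρ (L.gen (L.lab d.1)) = _
    rw [mul_assoc, ← map_mul, gen_rel, map_mul, ← mul_assoc]
  set h := top d0 with hh
  have hdegh : Multiplicative.toAdd (δ h) = Multiplicative.toAdd (δ d0.2) + 2 := by
    show Multiplicative.toAdd (δ (d0.2 * ρ (L.gen (L.ini d0.1)) * ρ (L.gen (L.lab d0.1)))) = _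
    rw [map_mul δ, map_mul δ, hδ, hδ, toAdd_mul, toAdd_mul, toAdd_ofAdd]
    ring
  set F : Finset E := (S.filter fun d => top d = h).image Prod.fst with hF
  have hFm : ∀ d ∈ S, top d = h → d.1 ∈ F := by
    intro d hd htd
    rw [hF, Finset.mem_image]
    exact ⟨d, Finset.mem_filter.2 ⟨hd, htd⟩, rfl⟩
  obtain ⟨e, he, v, h1, h2, h3⟩ := hL F ⟨d0.1, hFm d0 hd0 rfl⟩
  obtain ⟨⟨e0, a⟩, hea, hee⟩ := Finset.mem_image.1 he
  simp only at hee
  subst hee
  rw [Finset.mem_filter] at hea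
  obtain ⟨haS, hatop⟩ := hea
  -- the first factor is determined by the edge and the top
  have hdet : ∀ a', top (e0, a') = h → a' = a := by
    intro a' h4
    rw [← hatop] at h4
    have h5 : a' * ρ (L.gen (L.ini e0)) * ρ (L.gen (L.lab e0)) =
      a * ρ (L.gen (L.ini e0)) * ρ (L.gen (L.lab e0)) := h4
    exact mul_right_cancel (mul_right_cancel h5)
  have high : ∀ (a' : A) (u : V), (∃ e', (e', a') ∈ S) → a' * ρ (L.gen u) ≠ h := by
    rintro a' u ⟨e', he'⟩ h4
    have h5 := hmax (e', a') he'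
    simp only at h5
    rw [← h4, map_mul δ, hδ, toAdd_mul, toAdd_ofAdd] at hdegh
    omega
  have key : ∀ d' ∈ S, ∀ k' : Fin 4, L.sideA ρ d' k' = (v, h * (ρ (L.gen v))⁻¹) →
      d' = (e0, a) ∧ ((k' = 3 ∧ L.ter e0 = v) ∨ (k' = 1 ∧ L.lab e0 = v)) := by
    rintro ⟨e', a'⟩ hd' k' hk
    fin_cases k'
    · have hk1 : L.ini e' = v := congrArg Prod.fst hk
      have hk2 : a' * ρ 1 = h * (ρ (L.gen v))⁻¹ := congrArg Prod.snd hk
      rw [map_one, mul_one, eq_mul_inv_iff_mul_eq] at hk2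
      exact absurd hk2 (high a' v ⟨e', hd'⟩)
    · have hk1 : L.lab e' = v := congrArg Prod.fst hk
      have hk2 : a' * ρ (L.gen (L.ini e')) = h * (ρ (L.gen v))⁻¹ := congrArg Prod.snd hk
      rw [eq_mul_inv_iff_mul_eq, ← hk1] at hk2
      have h4 : top (e', a') = h := hk2
      have := h3 e' (hFm _ hd' h4) (Or.inr hk1)
      subst this
      have := hdet a' h4
      subst this
      exact ⟨rfl, Or.inr ⟨rfl, hk1⟩⟩
    · have hk1 : L.lab e' = v := congrArg Prod.fst hk
      have hk2 : a' * ρ 1 = h * (ρ (L.gen v))⁻¹ := congrArg Prod.snd hk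
      rw [map_one, mul_one, eq_mul_inv_iff_mul_eq] at hk2
      exact absurd hk2 (high a' v ⟨e', hd'⟩)
    · have hk1 : L.ter e' = v := congrArg Prod.fst hk
      have hk2 : a' * ρ (L.gen (L.lab e')) = h * (ρ (L.gen v))⁻¹ := congrArg Prod.snd hk
      rw [eq_mul_inv_iff_mul_eq, ← hk1] at hk2
      have h4 : top (e', a') = h := (htop' _).trans hk2
      have := h3 e' (hFm _ hd' h4) (Or.inl hk1)
      subst this
      have := hdet a' h4
      subst this
      exact ⟨rfl, Or.inl ⟨rfl, hk1⟩⟩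
  refine ⟨(e0, a), haS, ?_⟩
  rcases h1 with h1 | h1
  · refine ⟨3, fun d' hd' k' hk => ?_⟩
    have h4 : L.sideA ρ (e0, a) 3 = (v, h * (ρ (L.gen v))⁻¹) := by
      show (L.ter e0, a * ρ (L.gen (L.lab e0))) = (v, h * (ρ (L.gen v))⁻¹)
      rw [← hatop, htop']
      show (L.ter e0, a * ρ (L.gen (L.lab e0))) =
        (v, a * ρ (L.gen (L.lab e0)) * ρ (L.gen (L.ter e0)) * (ρ (L.gen v))⁻¹)
      rw [h1, mul_inv_cancel_right]
    obtain ⟨h5, h6⟩ := key d' hd' k' (hk.trans h4)
    refine ⟨h5, ?_⟩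
    rcases h6 with h6 | h6
    · exact h6.1
    · exact absurd (h1.trans h6.2.symm) h2
  · refine ⟨1, fun d' hd' k' hk => ?_⟩
    have h4 : L.sideA ρ (e0, a) 1 = (v, h * (ρ (L.gen v))⁻¹) := by
      show (L.lab e0, a * ρ (L.gen (L.ini e0))) = (v, h * (ρ (L.gen v))⁻¹)
      rw [← hatop]
      show (L.lab e0, a * ρ (L.gen (L.ini e0))) =
        (v, a * ρ (L.gen (L.ini e0)) * ρ (L.gen (L.lab e0)) * (ρ (L.gen v))⁻¹)
      rw [h1, mul_inv_cancel_right]
    obtain ⟨h5, h6⟩ := key d' hd' k' (hk.trans h4)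
    refine ⟨h5, ?_⟩
    rcases h6 with h6 | h6
    · exact absurd (h6.2.trans h1.symm) h2
    · exact h6.1

theorem freeSidesT (L : LOG V E) (hL : LeafyT L) : L.FreeSides :=
  freeSidesAT L hL (MonoidHom.id L.G) (deg L) fun v => deg_gen L v

theorem locInd_of_leafyT (L : LOG V E) (hL : LeafyT L) : LocInd L.G :=
  LocInd.ext locInd_int (deg L) fun H hH hne hk =>
    ker_li L (deg L) (freeSidesAT L hL (deg L) (MonoidHom.id _) fun v => deg_gen L v) H hH hk hne

end Pool.Agent.N819.LT
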