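import Pool.Agent.N819.LT.Leaf

/-!
# The group of a labelled oriented tree whose initial graph is a tree is a mapping torus
-/

set_option autoImplicit false

namespace Pool.Agent.N819.LT

open Pool.Agent.TH625.LOG Finset

variable {V E : Type}

/-- The mapping torus of an endomorphism `φ` of the free group with basis `X`: it has the generators
`t` (`none`) and `x` (`some x`, `x ∈ X`) and the relations `t⁻¹ w t = φ w`, `w` in the free group. -/
abbrev MT {X : Type} (φ : FreeGroup X →* FreeGroup X) : Type :=
  PresentedGroup {y : FreeGroup (Option X) | ∃ w : FreeGroup X, y = (FreeGroup.of none)⁻¹ *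
    FreeGroup.map some w * FreeGroup.of none * (FreeGroup.map some (φ w))⁻¹}

/-- the homomorphism of the free group to the mapping torus -/
def MT.inc {X : Type} (φ : FreeGroup X →* FreeGroup X) : FreeGroup X →* MT φ :=
  (PresentedGroup.mk _).comp (FreeGroup.map some)

/-- the stable letter -/
def MT.t {X : Type} (φ : FreeGroup X →* FreeGroup X) : MT φ := PresentedGroup.of none

theorem MT.rel {X : Type} (φ : FreeGroup X →* FreeGroup X) (w : FreeGroup X) :
    (MT.t φ)⁻¹ * MT.inc φ w * MT.t φ = MT.inc φ (φ w) := by
  have h : PresentedGroup.mk {y : FreeGroup (Option X) | ∃ w : FreeGroup X, y =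
      (FreeGroup.of none)⁻¹ * FreeGroup.map some w * FreeGroup.of none *
        (FreeGroup.map some (φ w))⁻¹} ((FreeGroup.of none)⁻¹ *
    FreeGroup.map some w * FreeGroup.of none * (FreeGroup.map some (φ w))⁻¹) = 1 :=
    PresentedGroup.one_of_mem ⟨w, rfl⟩
  rw [map_mul, map_mul, map_mul, map_inv, map_inv, mul_inv_eq_one] at h
  exact h

/-- integration over a tree -/
theorem exists_integral [Fintype V] [Fintype E] (p q : E → V) (hc : Conn p q)
    (hcard : Fintype.card V = Fintype.card E + 1) (r : V) {H : Type} [Group H] (h : E → H) :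
    ∃ g : V → H, g r = 1 ∧ ∀ e, (g (q e))⁻¹ * g (p e) = h e := by
  classical
  obtain ⟨d, ch, h1, h2, h3⟩ := exists_child p q hc hcard r
  let step : (V → H) → V → H := fun g v =>
    if hv : ∃ e, ch e = v then
      (if p hv.choose = v then g (q hv.choose) * h hv.choose else g (p hv.choose) * (h hv.choose)⁻¹)
    else 1
  let G : ℕ → V → H := fun n => Nat.rec (fun _ => 1) (fun _ g => step g) n
  have hG : ∀ n, G (n + 1) = step (G n) := fun n => rfl
  have hst : ∀ k, ∀ v, d v ≤ k → ∀ n, d v ≤ n → G (n + 1) v = G n v := by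
    intro k
    induction k with
    | zero =>
      intro v hv n hn
      have hno : ¬ ∃ e, ch e = v := by
        rintro ⟨e, rfl⟩
        rcases h1 e with h4 | h4 <;> omega
      have h5 : ∀ n, G n v = 1 := by
        intro n
        cases n with
        | zero => rfl
        | succ n => rw [hG]; exact dif_neg hno
      exact (h5 (n + 1)).trans (h5 n).symm
    | succ k ih =>
      intro v hv n hn
      by_cases hex : ∃ e, ch e = v
      · have he : ch hex.choose = v := hex.choose_spec
        set e := hex.choose with hedef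
        have hstep : ∀ g : V → H, step g v = if p e = v then g (q e) * h e else g (p e) * (h e)⁻¹ := by
          intro g
          show (if hv : ∃ e, ch e = v then _ else _) = _
          rw [dif_pos hex]
        have hdpos : 1 ≤ d v := by
          rcases h1 e with h4 | h4 <;> (rw [he] at h4; omega)
        obtain ⟨m, rfl⟩ : ∃ m, n = m + 1 := ⟨n - 1, by omega⟩
        have e1 : G (m + 1 + 1) v = step (G (m + 1)) v := rfl
        have e2 : G (m + 1) v = step (G m) v := rfl
        rw [e1, e2, hstep (G (m + 1)), hstep (G m)]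
        by_cases hp : p e = v
        · rw [if_pos hp, if_pos hp]
          have h4 : d (q e) + 1 = d v := by
            rcases h1 e with h4 | h4
            · rw [he] at h4; exact h4.2
            · rw [he, hp] at h4; omega
          rw [ih (q e) (by omega) m (by omega)]
        · rw [if_neg hp, if_neg hp]
          have h4 : d (p e) + 1 = d v := by
            rcases h1 e with h4 | h4
            · rw [he] at h4; exact absurd h4.1 hp
            · rw [he] at h4; exact h4.2
          rw [ih (p e) (by omega) m (by omega)]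
      · have h5 : ∀ n, G n v = 1 := by
          intro n
          cases n with
          | zero => rfl
          | succ n => rw [hG]; exact dif_neg hex
        exact (h5 (n + 1)).trans (h5 n).symm
  let N := ∑ v, d v
  have hN : ∀ v, d v ≤ N := fun v => Finset.single_le_sum (f := d) (fun _ _ => Nat.zero_le _)
    (Finset.mem_univ v)
  have hfix : ∀ v, step (G N) v = G N v := by
    intro v
    rw [← hG]
    exact hst (d v) v le_rfl N (hN v)
  refine ⟨G N, ?_, fun e => ?_⟩
  · rw [← hfix]
    refine dif_neg ?_
    rintro ⟨e, he⟩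
    exact h3 e he
  · have hex : ∃ e', ch e' = ch e := ⟨e, rfl⟩
    have hcho : hex.choose = e := h2 hex.choose_spec
    have hs : step (G N) (ch e) =
        if p e = ch e then G N (q e) * h e else G N (p e) * (h e)⁻¹ := by
      show (if hv : ∃ e', ch e' = ch e then _ else _) = _
      rw [dif_pos hex, hcho]
    rw [hfix] at hs
    by_cases hp : p e = ch e
    · rw [if_pos hp] at hs
      rw [hp, hs, inv_mul_cancel_left]
    · rw [if_neg hp] at hs
      have hq : q e = ch e := by
        rcases h1 e with h4 | h4
        · exact absurd h4.1 hp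
        · exact h4.1
      rw [hq, hs]
      group

open Classical in
/-- the generator of the vertex `v` in the free group with basis the vertices different from `r` -/
noncomputable def uu (r v : V) : FreeGroup {v : V // v ≠ r} :=
  if h : v = r then 1 else FreeGroup.of ⟨v, h⟩

theorem uu_root (r : V) : uu r r = 1 := dif_pos rfl

theorem uu_of (r : V) (v : {v : V // v ≠ r}) : uu r v.1 = FreeGroup.of v := dif_neg v.2

/-- The statement that the group of `L` is the mapping torus of an endomorphism of the free group with
basis the vertices different from `r`, the generator of `r` being the stable letter. -/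
def IsMT (L : LOG V E) (r : V) : Prop :=
  ∃ (φ : FreeGroup {v : V // v ≠ r} →* FreeGroup {v : V // v ≠ r}) (α : L.G ≃* MT φ),
    α (L.gen r) = MT.t φ ∧ ∀ v : {v : V // v ≠ r}, α (L.gen v) = MT.t φ * MT.inc φ (FreeGroup.of v)

theorem isMT [Fintype V] [Fintype E] (L : LOG V E) (hc : Conn L.ini L.lab)
    (hcard : Fintype.card V = Fintype.card E + 1) (r : V) : IsMT L r := by
  classical
  obtain ⟨g, hg1, hg⟩ := exists_integral L.ini L.lab hc hcard r
    (fun e => uu r (L.ter e) * (uu r (L.lab e))⁻¹)
  let φ : FreeGroup {v : V // v ≠ r} →* FreeGroup {v : V // v ≠ r} :=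
    FreeGroup.lift fun v => g v.1
  have hφu : ∀ v, φ (uu r v) = g v := by
    intro v
    by_cases h : v = r
    · rw [h, uu_root, map_one, hg1]
    · rw [uu_of r ⟨v, h⟩]
      exact FreeGroup.lift_apply_of
  have hφ : ∀ e, φ ((uu r (L.lab e))⁻¹ * uu r (L.ini e)) =
      uu r (L.ter e) * (uu r (L.lab e))⁻¹ := by
    intro e
    rw [map_mul, map_inv, hφu, hφu]
    exact hg e
  -- the homomorphism to the mapping torus
  let f : V → MT φ := fun v => MT.t φ * MT.inc φ (uu r v)
  have hf : ∀ x ∈ Set.range L.rel, FreeGroup.lift f x = 1 := by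
    rintro _ ⟨e, rfl⟩
    simp only [LOG.rel, map_mul, map_inv, FreeGroup.lift_apply_of]
    rw [mul_inv_eq_one, mul_inv_eq_iff_eq_mul]
    show MT.t φ * MT.inc φ (uu r (L.ini e)) * (MT.t φ * MT.inc φ (uu r (L.lab e))) =
      MT.t φ * MT.inc φ (uu r (L.lab e)) * (MT.t φ * MT.inc φ (uu r (L.ter e)))
    have h1 := MT.rel φ ((uu r (L.lab e))⁻¹ * uu r (L.ini e))
    rw [hφ, map_mul, map_mul, map_inv] at h1
    -- h1 : t⁻¹ * (c⁻¹ * a) * t = b * c⁻¹
    generalize MT.inc φ (uu r (L.ini e)) = a at *
    generalize MT.inc φ (uu r (L.lab e)) = c at *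
    generalize MT.inc φ (uu r (L.ter e)) = b at *
    generalize MT.t φ = t at *
    have h2 : b = t⁻¹ * (c⁻¹ * a) * t * c := by rw [h1]; group
    rw [h2]
    group
  let F : L.G →* MT φ := PresentedGroup.toGroup hf
  have hF : ∀ v, F (L.gen v) = MT.t φ * MT.inc φ (uu r v) := fun v => PresentedGroup.toGroup.of _
  -- the homomorphism from the mapping torus
  let κ : FreeGroup {v : V // v ≠ r} →* L.G := FreeGroup.lift fun v => (L.gen r)⁻¹ * L.gen v.1
  have hκ : ∀ v, κ (uu r v) = (L.gen r)⁻¹ * L.gen v := by
    intro v
    by_cases h : v = r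
    · rw [h, uu_root, map_one, inv_mul_cancel]
    · rw [uu_of r ⟨v, h⟩]
      exact FreeGroup.lift_apply_of
  let cj : L.G →* L.G := (MulAut.conj (L.gen r)⁻¹).toMonoidHom
  have hcj : ∀ x, cj x = (L.gen r)⁻¹ * x * L.gen r := by
    intro x
    show (L.gen r)⁻¹ * x * ((L.gen r)⁻¹)⁻¹ = _
    rw [inv_inv]
  have heq : cj.comp κ = κ.comp φ := by
    have hw : ∀ e, (cj.comp κ) ((uu r (L.lab e))⁻¹ * uu r (L.ini e)) =
        (κ.comp φ) ((uu r (L.lab e))⁻¹ * uu r (L.ini e)) := by
      intro e
      rw [MonoidHom.comp_apply, MonoidHom.comp_apply, hφ, hcj, map_mul, map_mul, map_inv,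
        hκ, hκ, hκ]
      have h1 := gen_rel L e
      generalize L.gen (L.ini e) = a at *
      generalize L.gen (L.lab e) = c at *
      generalize L.gen (L.ter e) = b at *
      generalize L.gen r = s at *
      have h2 : b = c⁻¹ * (a * c) := by rw [h1]; group
      rw [h2]
      group
    have hu : ∀ v, uu r v ∈ (cj.comp κ).eqLocus (κ.comp φ) := by
      intro v
      induction hc r v with
      | refl => rw [uu_root]; exact Subgroup.one_mem _
      | @tail y z _ h4 ih =>
        obtain ⟨e, ⟨a1, a2⟩ | ⟨a1, a2⟩⟩ := h4
        · have h5 : (uu r (L.lab e))⁻¹ * uu r (L.ini e) ∈ (cj.comp κ).eqLocus (κ.comp φ) := hw e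
          rw [a1, a2] at h5
          have h6 := Subgroup.mul_mem _ h5 (Subgroup.inv_mem _ ih)
          rw [mul_inv_cancel_right] at h6
          exact (Subgroup.inv_mem_iff _).1 h6
        · have h5 : (uu r (L.lab e))⁻¹ * uu r (L.ini e) ∈ (cj.comp κ).eqLocus (κ.comp φ) := hw e
          rw [a1, a2] at h5
          have h6 := Subgroup.mul_mem _ ih h5
          rw [mul_inv_cancel_left] at h6
          exact h6
    ext v
    have := hu v.1
    rw [uu_of] at this
    exact this
  let f' : Option {v : V // v ≠ r} → L.G := fun o => o.elim (L.gen r) fun v => κ (FreeGroup.of v)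
  have hmap : ∀ w, FreeGroup.lift f' (FreeGroup.map some w) = κ w := by
    intro w
    have : (FreeGroup.lift f').comp (FreeGroup.map some) = κ := by
      ext v
      simp [f']
    exact DFunLike.congr_fun this w
  have hf' : ∀ x ∈ {y : FreeGroup (Option {v : V // v ≠ r}) | ∃ w : FreeGroup {v : V // v ≠ r}, y =
      (FreeGroup.of none)⁻¹ * FreeGroup.map some w * FreeGroup.of none *
        (FreeGroup.map some (φ w))⁻¹}, FreeGroup.lift f' x = 1 := by
    rintro _ ⟨w, rfl⟩
    rw [map_mul, map_mul, map_mul, map_inv, map_inv, hmap, hmap, FreeGroup.lift_apply_of,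
      mul_inv_eq_one]
    have h1 := DFunLike.congr_fun heq w
    rw [MonoidHom.comp_apply, MonoidHom.comp_apply, hcj] at h1
    exact h1
  let F' : MT φ →* L.G := PresentedGroup.toGroup hf'
  have hF't : F' (MT.t φ) = L.gen r := PresentedGroup.toGroup.of _
  have hF'i : ∀ w, F' (MT.inc φ w) = κ w := fun w => hmap w
  have h1 : F'.comp F = MonoidHom.id _ := by
    apply PresentedGroup.ext
    intro v
    show F' (F (L.gen v)) = L.gen v
    rw [hF, map_mul, hF't, hF'i, hκ, mul_inv_cancel_left]
  have h2 : F.comp F' = MonoidHom.id _ := by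
    apply PresentedGroup.ext
    intro o
    cases o with
    | none =>
      show F (F' (MT.t φ)) = MT.t φ
      rw [hF't, hF, uu_root, map_one, mul_one]
    | some v =>
      have h3 : (PresentedGroup.of (some v) : MT φ) = MT.inc φ (FreeGroup.of v) := by
        show _ = PresentedGroup.mk _ (FreeGroup.map some (FreeGroup.of v))
        rw [FreeGroup.map.of]
        rfl
      show F (F' (PresentedGroup.of (some v))) = PresentedGroup.of (some v)
      rw [h3, hF'i, ← uu_of r v, hκ, map_mul, map_inv, hF, hF, uu_root, map_one, mul_one,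
        inv_mul_cancel_left]
  refine ⟨φ, MulEquiv.mk' ⟨F, F', fun x => DFunLike.congr_fun h1 x,
    fun x => DFunLike.congr_fun h2 x⟩ (map_mul F), ?_, fun v => ?_⟩
  · show F (L.gen r) = MT.t φ
    rw [hF, uu_root, map_one, mul_one]
  · show F (L.gen v.1) = _
    rw [hF, uu_of]

end Pool.Agent.N819.LT
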