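import Pool.Agent.N819.LT.MT
import Pool.Agent.N819.LT.LeafT
import Pool.Agent.N819.LT.Alex

/-!
# Decompositions of the complexes of labelled oriented trees
-/

set_option autoImplicit false

namespace Pool.Agent.N819.LT

open Pool.Agent.TH625.LOG

variable {V E : Type}

/-- The conclusion for a complex: the fundamental group is locally indicable, closed diagrams in the
universal covering are reducible, and the boundary operator from the 2-chains to the 1-chains of the
universal covering is injective (the complex is aspherical). -/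
def Good (L : LOG V E) : Prop :=
  LocInd L.G ∧ L.Folds ∧ ∀ c : (E × L.G) →₀ ℤ, L.bdry c = 0 → c = 0

open Classical in
/-- The edges of the set `T` are reversed. -/
noncomputable def rev (L : LOG V E) (T : Set E) : LOG V E where
  ini e := if e ∈ T then L.ter e else L.ini e
  ter e := if e ∈ T then L.ini e else L.ter e
  lab := L.lab

theorem good_of_leafy (L : LOG V E) (h : Leafy L) : Good L :=
  ⟨locInd_of_leafy _ h, folds _ (freeSides _ h), fun c hc => bdry_inj _ (freeSides _ h) c hc⟩

theorem good_of_leafyT (L : LOG V E) (h : LeafyT L) : Good L :=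
  ⟨locInd_of_leafyT _ h, folds _ (freeSidesT _ h), fun c hc => bdry_inj _ (freeSidesT _ h) c hc⟩

variable [Fintype V] [Fintype E]

/-- the two parts of a decomposition, and all their subcomplexes -/
theorem good_mixed (L : LOG V E) (hcard : Fintype.card V = Fintype.card E + 1) (S : Set E)
    (hS : Mixed L S) (S' : Set E) (h : S' ⊆ S ∨ S' ⊆ Sᶜ) : Good (sub L S') := by
  classical
  let L0 : LOG V E := ⟨fun e => if e ∈ S then L.ini e else L.ter e, L.ter, L.lab⟩
  have h0 : Leafy (sub L0 S') := (leafy_of_tree L0 hS hcard).sub S'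
  rcases h with h | h
  · refine good_of_leafy _ ?_
    have h1 : ∀ e : S', (sub L0 S').ini e = (sub L S').ini e := fun e => if_pos (h e.2)
    intro F hF
    obtain ⟨e, he, v, h2, h3, h4⟩ := h0 F hF
    rw [h1] at h2 h3
    exact ⟨e, he, v, h2, h3, fun e' he' h5 => h4 e' he' (by rw [h1]; exact h5)⟩
  · refine good_of_leafyT _ ?_
    have h1 : ∀ e : S', (sub L0 S').ini e = (sub L S').ter e := fun e => if_neg (h e.2)
    intro F hF
    obtain ⟨e, he, v, h2, h3, h4⟩ := h0 F hF
    rw [h1] at h2 h3
    exact ⟨e, he, v, h2, h3, fun e' he' h5 => h4 e' he' (by rw [h1]; exact h5)⟩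

theorem image_eq (L : LOG V E) (P : Set E → Prop) :
    {S : Set E | P S ∧ Mixed L S}.ncard =
      {o : E → Bool | P {e | o e = false} ∧
        Conn (fun e => if o e = true then L.ter e else L.ini e) L.lab}.ncard := by
  classical
  have hinj : Function.Injective (fun o : E → Bool => {e | o e = false}) := by
    intro o o' h
    funext e
    have h1 : (o e = false) ↔ (o' e = false) := by
      have := congrArg (fun S : Set E => e ∈ S) h
      simpa using this
    cases h2 : o e <;> cases h3 : o' e <;> simp_all
  rw [← Set.ncard_image_of_injective _ hinj]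
  congr 1
  ext S
  simp only [Set.mem_image, Set.mem_ofPred_eq]
  have hM : ∀ o : E → Bool, Mixed L {e | o e = false} ↔
      Conn (fun e => if o e = true then L.ter e else L.ini e) L.lab := by
    intro o
    unfold Mixed
    refine iff_of_eq (congrArg (fun p => Conn p L.lab) ?_)
    funext e
    by_cases h : o e = true
    · simp [h]
    · simp [h]
  constructor
  · rintro ⟨h1, h2⟩
    refine ⟨fun e => decide (e ∉ S), ?_⟩
    have h3 : {e | decide (e ∉ S) = false} = S := by
      ext e; simp
    rw [← hM, h3]
    exact ⟨⟨h1, h2⟩, rfl⟩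
  · rintro ⟨o, ⟨h1, h2⟩, rfl⟩
    exact ⟨h1, (hM o).2 h2⟩

open Classical in
/-- **Parity of the number of decompositions** with a prescribed part. -/
theorem parityL (L : LOG V E) (hL : L.Conn) (hcard : Fintype.card V = Fintype.card E + 1)
    (J S₀ : Set E) :
    Odd {S : Set E | S ∩ J = S₀ ∩ J ∧ Mixed L S}.ncard ↔
      Conn (fun e => if e ∈ J ∧ e ∉ S₀ then L.ter e else L.ini e)
        (fun e => if e ∈ J then L.lab e else L.ter e) := by
  let x : LTree V E := ⟨L.ini, L.ter, L.lab, hL, hcard⟩
  have h := parity x J.toFinset (fun e => decide (e ∉ S₀))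
  have hi : ∀ o : E → Bool, (x.log o).ini = fun e => if o e = true then L.ter e else L.ini e :=
    fun o => rfl
  have h1 : (fun e => if e ∈ J.toFinset then (x.log fun e => decide (e ∉ S₀)).ini e else x.a e) =
      fun e => if e ∈ J ∧ e ∉ S₀ then L.ter e else L.ini e := by
    funext e
    rw [hi]
    by_cases hJ : e ∈ J <;> by_cases hS : e ∈ S₀ <;> simp [hJ, hS, x]
  have h2 : (fun e => if e ∈ J.toFinset then x.lab e else x.b e) =
      fun e => if e ∈ J then L.lab e else L.ter e := by
    funext e
    by_cases hJ : e ∈ J <;> simp [hJ, x]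
  rw [h1, h2] at h
  rw [← h, image_eq L fun S => S ∩ J = S₀ ∩ J]
  have h3 : {o : E → Bool | {e | o e = false} ∩ J = S₀ ∩ J ∧
        Conn (fun e => if o e = true then L.ter e else L.ini e) L.lab} =
      ((Finset.univ.filter fun o : E → Bool => (∀ e ∈ J.toFinset, o e = decide (e ∉ S₀)) ∧
        Conn (x.log o).ini x.lab : Finset (E → Bool)) : Set (E → Bool)) := by
    ext o
    simp only [Set.mem_ofPred_eq, Finset.coe_filter, Finset.mem_univ, true_and, Set.mem_toFinset, hi]
    refine and_congr_left fun _ => ?_
    constructor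
    · intro h4 e he
      have h5 : (o e = false ∧ e ∈ J) ↔ (e ∈ S₀ ∧ e ∈ J) := by
        have := congrArg (fun S : Set E => e ∈ S) h4
        simpa using this
      by_cases h6 : e ∈ S₀
      · have := (h5.2 ⟨h6, he⟩).1
        simp [this, h6]
      · have h7 : o e = true := by
          cases h8 : o e
          · exact absurd (h5.1 ⟨h8, he⟩).1 h6
          · rfl
        simp [h7, h6]
    · intro h4
      ext e
      simp only [Set.mem_inter_iff, Set.mem_ofPred_eq]
      refine and_congr_left fun he => ?_
      rw [h4 e he]
      simp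
  rw [h3, Set.ncard_coe_finset]

theorem parityL0 (L : LOG V E) (hL : L.Conn) (hcard : Fintype.card V = Fintype.card E + 1) :
    Odd {S : Set E | Mixed L S}.ncard := by
  classical
  have h := (parityL L hL hcard ∅ ∅).2 (by simpa using (show Conn L.ini L.ter from hL))
  simpa using h

open Classical in
theorem coeffL (L : LOG V E) (r : V) (σ : V ≃ Option E) (j : ℕ) :
    ({S : Set E | Sᶜ.ncard = j ∧ Mixed L S}.ncard : ZMod 2) = (alexM L r σ).det.coeff j := by
  rw [← coeff_alex L r σ j, image_eq L fun S => Sᶜ.ncard = j]
  congr 1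
  have h3 : {o : E → Bool | ({e | o e = false}ᶜ : Set E).ncard = j ∧
        Conn (fun e => if o e = true then L.ter e else L.ini e) L.lab} =
      ((Finset.univ.filter fun o : E → Bool => (Finset.univ.filter fun e => o e = true).card = j ∧
      Conn (fun e => if o e = true then L.ter e else L.ini e) L.lab : Finset (E → Bool)) :
        Set (E → Bool)) := by
    ext o
    simp only [Set.mem_ofPred_eq, Finset.coe_filter, Finset.mem_univ, true_and]
    refine and_congr_left fun _ => ?_
    have : ({e | o e = false}ᶜ : Set E) = ((Finset.univ.filter fun e => o e = true : Finset E) : Set E) := by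
      ext e
      simp
    rw [this, Set.ncard_coe_finset]
  rw [h3, Set.ncard_coe_finset]

theorem coeffL' [inst : DecidableEq E] (L : LOG V E) (r : V) (σ : V ≃ Option E) (j : ℕ) :
    ({S : Set E | Sᶜ.ncard = j ∧ Mixed L S}.ncard : ZMod 2) = (alexM L r σ).det.coeff j := by
  obtain rfl : inst = fun a b => Classical.propDecidable (a = b) := Subsingleton.elim _ _
  exact coeffL L r σ j

/-- reversals -/
theorem mixed_rev (L : LOG V E) (T : Set E) :
    Conn (rev L T).ini L.lab ↔ Mixed L Tᶜ := by
  classical
  unfold Mixed
  refine iff_of_eq (congrArg (fun p => Conn p L.lab) ?_)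
  funext e
  by_cases h : e ∈ T <;> simp [h, rev]

theorem parity_rev (L : LOG V E) (hL : L.Conn) (hcard : Fintype.card V = Fintype.card E + 1) :
    Odd {T : Set E | Conn (rev L T).ini L.lab}.ncard := by
  have h := parityL0 L hL hcard
  have h1 : {T : Set E | Conn (rev L T).ini L.lab} = (fun S : Set E => Sᶜ) '' {S : Set E | Mixed L S} := by
    ext T
    simp only [Set.mem_image, Set.mem_ofPred_eq]
    constructor
    · intro h2
      exact ⟨Tᶜ, (mixed_rev L T).1 h2, compl_compl T⟩
    · rintro ⟨S, h2, rfl⟩
      rw [mixed_rev, compl_compl]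
      exact h2
  rw [h1, Set.ncard_image_of_injective _ compl_injective]
  exact h

theorem good_rev (L : LOG V E) (hcard : Fintype.card V = Fintype.card E + 1) (T : Set E)
    (h : Conn (rev L T).ini L.lab) :
    (∀ S : Set E, Good (sub (rev L T) S)) ∧ ∀ r : V, IsMT (rev L T) r :=
  ⟨fun S => good_of_leafy _ ((leafy_of_tree (rev L T) h hcard).sub S),
    fun r => isMT (rev L T) h hcard r⟩

end Pool.Agent.N819.LT
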