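import Pool.Agent.N819.LT.Main

/-!
# Orientations of labelled trees
-/

set_option autoImplicit false

namespace Pool.Agent.N819.LT

open Pool.Agent.TH625.LOG

variable {V E : Type} [Fintype V] [Fintype E]

theorem LTree.log_conn (x : LTree V E) (o : E → Bool) : (x.log o).Conn := by
  have key : ∀ y z, Joined x.a x.b y z → (x.log o).Adj y z := by
    rintro y z ⟨e, h | h⟩
    · by_cases ho : o e = true
      · exact ⟨e, Or.inr ⟨by simp [LTree.log, ho, h.1], by simp [LTree.log, ho, h.2]⟩⟩
      · exact ⟨e, Or.inl ⟨by simp [LTree.log, ho, h.1], by simp [LTree.log, ho, h.2]⟩⟩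
    · by_cases ho : o e = true
      · exact ⟨e, Or.inl ⟨by simp [LTree.log, ho, h.1], by simp [LTree.log, ho, h.2]⟩⟩
      · exact ⟨e, Or.inr ⟨by simp [LTree.log, ho, h.1], by simp [LTree.log, ho, h.2]⟩⟩
  intro y z
  induction x.conn y z with
  | refl => exact Relation.ReflTransGen.refl
  | tail _ h ih => exact ih.tail (key _ _ h)

theorem parity' (x : LTree V E) (J : Finset E) (c : E → Bool) [DecidableEq E] :
    Odd {o : E → Bool | (∀ e ∈ J, o e = c e) ∧ Conn (x.log o).ini x.lab}.ncard ↔
    Conn (fun e => if e ∈ J then (x.log c).ini e else x.a e)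
      (fun e => if e ∈ J then x.lab e else x.b e) := by
  classical
  rw [← parity x J c]
  have : {o : E → Bool | (∀ e ∈ J, o e = c e) ∧ Conn (x.log o).ini x.lab} =
      ((Finset.univ.filter fun o : E → Bool => (∀ e ∈ J, o e = c e) ∧
        Conn (x.log o).ini x.lab : Finset (E → Bool)) : Set (E → Bool)) := by
    ext o
    simp
  rw [this, Set.ncard_coe_finset]

theorem parity0 (x : LTree V E) :
    Odd {o : E → Bool | Conn (x.log o).ini x.lab}.ncard := by
  classical
  have h := (parity' x ∅ (fun _ => false)).2 (by simpa using x.conn)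
  simpa using h

theorem good_ori (x : LTree V E) (o : E → Bool) (ho : Conn (x.log o).ini x.lab) :
    (∀ S : Set E, Good (sub (x.log o) S)) ∧ ∀ r : V, IsMT (x.log o) r :=
  ⟨fun S => good_of_leafy _ ((leafy_of_tree (x.log o) ho x.card).sub S),
    fun r => isMT (x.log o) ho x.card r⟩

end Pool.Agent.N819.LT
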