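import Pool.Agent.N819.LT.Defs

/-!
# The parity of the number of orientations whose initial graph is a tree
-/

set_option autoImplicit false

namespace Pool.Agent.N819.LT

open Pool.Agent.TH625.LOG Finset

variable {V E : Type}

theorem Joined.symm {p q : E → V} {x y : V} (h : Joined p q x y) : Joined p q y x := by
  obtain ⟨e, h | h⟩ := h
  · exact ⟨e, Or.inr ⟨h.2, h.1⟩⟩
  · exact ⟨e, Or.inl ⟨h.2, h.1⟩⟩

theorem conn_of_root {p q : E → V} (r : V)
    (h : ∀ x, Relation.ReflTransGen (Joined p q) r x) : Conn p q := by
  have hs : ∀ x y, Relation.ReflTransGen (Joined p q) x y →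
      Relation.ReflTransGen (Joined p q) y x := by
    intro x y hxy
    induction hxy with
    | refl => exact Relation.ReflTransGen.refl
    | tail _ h1 ih => exact Relation.ReflTransGen.head h1.symm ih
  exact fun x y => (hs r x (h x)).trans (h y)

section mat

variable [DecidableEq V] [DecidableEq E]

/-- the rows: the unit vector of the root, the sum of the unit vectors of the ends of an edge -/
def row (r : V) (σ : V ≃ Option E) (i : Option E) (z : V × V) : Option E → ZMod 2 :=
  fun j => i.elim (if σ.symm j = r then 1 else 0)
    (fun _ => (if σ.symm j = z.1 then 1 else 0) + (if σ.symm j = z.2 then 1 else 0))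

/-- the matrix of the graph -/
def mat (r : V) (σ : V ≃ Option E) (p q : E → V) : Matrix (Option E) (Option E) (ZMod 2) :=
  fun i => row r σ i (i.elim (r, r) fun e => (p e, q e))

variable [Fintype E]

theorem mulVec_none (r : V) (σ : V ≃ Option E) (p q : E → V) (v : Option E → ZMod 2) :
    (mat r σ p q).mulVec v none = v (σ r) := by
  unfold Matrix.mulVec dotProduct mat row
  simp only [Option.elim_none, ite_mul, one_mul, zero_mul]
  rw [Finset.sum_eq_single (σ r)]
  · simp
  · intro j _ hj
    rw [if_neg]
    intro h
    exact hj (by rw [← h, Equiv.apply_symm_apply])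
  · intro h; exact absurd (Finset.mem_univ _) h

theorem sum_ind (σ : V ≃ Option E) (x : V) (v : Option E → ZMod 2) :
    ∑ j, (if σ.symm j = x then (1 : ZMod 2) else 0) * v j = v (σ x) := by
  rw [Finset.sum_eq_single (σ x)]
  · simp
  · intro j _ hj
    rw [if_neg, zero_mul]
    intro h
    exact hj (by rw [← h, Equiv.apply_symm_apply])
  · intro h; exact absurd (Finset.mem_univ _) h

theorem mulVec_some (r : V) (σ : V ≃ Option E) (p q : E → V) (v : Option E → ZMod 2) (e : E) :
    (mat r σ p q).mulVec v (some e) = v (σ (p e)) + v (σ (q e)) := by
  have h : (mat r σ p q).mulVec v (some e) =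
      ∑ j, ((if σ.symm j = p e then (1 : ZMod 2) else 0) + (if σ.symm j = q e then 1 else 0)) * v j :=
    rfl
  rw [h]
  simp only [add_mul]
  rw [Finset.sum_add_distrib, sum_ind, sum_ind]

theorem det_ne_zero_iff (r : V) (σ : V ≃ Option E) (p q : E → V) :
    (mat r σ p q).det ≠ 0 ↔ Conn p q := by
  classical
  rw [← not_iff_not, not_not, ← Matrix.exists_mulVec_eq_zero_iff]
  constructor
  · rintro ⟨v, hv, h⟩ hc
    apply hv
    have h0 : v (σ r) = 0 := by
      have := congrFun h none
      rwa [mulVec_none] at this
    have h1 : ∀ e, v (σ (p e)) + v (σ (q e)) = 0 := by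
      intro e
      have := congrFun h (some e)
      rwa [mulVec_some] at this
    have h2 : ∀ x, v (σ x) = 0 := by
      intro x
      induction hc r x with
      | refl => exact h0
      | tail _ h3 ih =>
        obtain ⟨e, ⟨a1, a2⟩ | ⟨a1, a2⟩⟩ := h3
        · have := h1 e
          rw [a1, a2, ih, zero_add] at this
          exact this
        · have := h1 e
          rw [a1, a2, ih, add_zero] at this
          exact this
    funext j
    have := h2 (σ.symm j)
    rwa [Equiv.apply_symm_apply] at this
  · intro hc
    have hex : ∃ x, ¬ Relation.ReflTransGen (Joined p q) r x := by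
      by_contra hcon
      push Not at hcon
      exact hc (conn_of_root r hcon)
    obtain ⟨y, hy⟩ := hex
    refine ⟨fun j => if Relation.ReflTransGen (Joined p q) r (σ.symm j) then 0 else 1, ?_, ?_⟩
    · intro h
      have := congrFun h (σ y)
      simp only [Equiv.symm_apply_apply, Pi.zero_apply] at this
      rw [if_neg hy] at this
      exact one_ne_zero this
    · funext i
      cases i with
      | none =>
        rw [mulVec_none]
        simp only [Equiv.symm_apply_apply, Pi.zero_apply]
        rw [if_pos Relation.ReflTransGen.refl]
      | some e =>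
        rw [mulVec_some]
        simp only [Equiv.symm_apply_apply, Pi.zero_apply]
        have h3 : Relation.ReflTransGen (Joined p q) r (p e) ↔
            Relation.ReflTransGen (Joined p q) r (q e) :=
          ⟨fun h => h.tail ⟨e, Or.inl ⟨rfl, rfl⟩⟩, fun h => h.tail ⟨e, Or.inr ⟨rfl, rfl⟩⟩⟩
        by_cases h4 : Relation.ReflTransGen (Joined p q) r (p e)
        · rw [if_pos h4, if_pos (h3.1 h4), add_zero]
        · rw [if_neg h4, if_neg (fun h => h4 (h3.2 h))]
          decide

theorem zmod2_eq (z : ZMod 2) : z = if z ≠ 0 then 1 else 0 := by
  revert z; decide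

end mat

variable [Fintype V] [Fintype E] [DecidableEq V] [DecidableEq E]

open Classical in
/-- **Parity.** Let an orientation `c` of the edges of a set `J` be given. The number of its extensions
to an orientation of the labelled tree for which the graph of the pairs (initial vertex, label) is
connected (that is, a tree) is odd if and only if the edges `(initial vertex, label)` of the elements of
`J` together with the edges of the tree that are not in `J` form a connected graph (that is, a tree). -/
theorem parity (x : LTree V E) (J : Finset E) (c : E → Bool) :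
    Odd (Finset.univ.filter fun o : E → Bool => (∀ e ∈ J, o e = c e) ∧
      Conn (x.log o).ini x.lab).card ↔
    Conn (fun e => if e ∈ J then (x.log c).ini e else x.a e)
      (fun e => if e ∈ J then x.lab e else x.b e) := by
  have hne : Nonempty V := by
    rw [← Fintype.card_pos_iff, x.card]; omega
  obtain ⟨r⟩ := hne
  have hc : Fintype.card V = Fintype.card (Option E) := by rw [Fintype.card_option, x.card]
  let σ : V ≃ Option E := Fintype.equivOfCardEq hc
  let f : MultilinearMap (ZMod 2) (fun _ : Option E => Option E → ZMod 2) (ZMod 2) :=
    (Matrix.detRowAlternating : (Option E → ZMod 2) [⋀^Option E]→ₗ[ZMod 2] ZMod 2).toMultilinearMap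
  have hf : ∀ M : Matrix (Option E) (Option E) (ZMod 2), f M = M.det := fun M => rfl
  let g : (i : Option E) → Bool → (Option E → ZMod 2) := fun i t =>
    row r σ i (i.elim (r, r) fun e => (if t = true then x.b e else x.a e, x.lab e))
  let A : Option E → Finset Bool := fun i => i.elim {true} fun e => if e ∈ J then {c e} else univ
  have hsum := f.map_sum_finset g A
  have hleft : (fun i => ∑ j ∈ A i, g i j) =
      mat r σ (fun e => if e ∈ J then (x.log c).ini e else x.a e)
        (fun e => if e ∈ J then x.lab e else x.b e) := by
    funext i
    cases i with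
    | none => simp [A, g, mat]
    | some e =>
      by_cases he : e ∈ J
      · simp [A, g, mat, he, LTree.log]
      · simp only [A, g, mat, he, Option.elim_some, if_false]
        rw [Fintype.sum_bool]
        funext j
        simp only [Pi.add_apply, row, Option.elim_some, if_true, Bool.false_eq_true, if_false]
        have h2 : (2 : ZMod 2) = 0 := by decide
        linear_combination (if σ.symm j = x.lab e then (1 : ZMod 2) else 0) * h2
  rw [hleft, hf] at hsum
  have hright : ∀ ρ : Option E → Bool, (f fun i => g i (ρ i)) =
      (mat r σ (x.log fun e => ρ (some e)).ini x.lab).det := by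
    intro ρ
    rw [← hf]
    congr 1
    funext i
    cases i with
    | none => simp [g, mat]
    | some e => simp [g, mat, LTree.log]
  rw [Finset.sum_congr rfl fun ρ _ => hright ρ] at hsum
  rw [Finset.sum_congr rfl fun ρ _ => zmod2_eq _, Finset.sum_boole] at hsum
  rw [← det_ne_zero_iff r σ, hsum]
  have hcard : ((Fintype.piFinset A).filter fun ρ : Option E → Bool =>
      (mat r σ (x.log fun e => ρ (some e)).ini x.lab).det ≠ 0).card =
      (Finset.univ.filter fun o : E → Bool => (∀ e ∈ J, o e = c e) ∧
        Conn (x.log o).ini x.lab).card := by
    refine Finset.card_nbij' (fun ρ e => ρ (some e)) (fun o i => i.elim true o) ?_ ?_ ?_ ?_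
    · intro ρ hρ
      simp only [Finset.coe_filter, Set.mem_ofPred_eq, Fintype.mem_piFinset, mem_univ, true_and] at hρ ⊢
      obtain ⟨h1, h2⟩ := hρ
      refine ⟨fun e he => ?_, (det_ne_zero_iff r σ _ _).1 h2⟩
      have := h1 (some e)
      simpa [A, he] using this
    · intro o ho
      simp only [Finset.coe_filter, Set.mem_ofPred_eq, Fintype.mem_piFinset, mem_univ, true_and] at ho ⊢
      refine ⟨fun i => ?_, ?_⟩
      · cases i with
        | none => simp [A]
        | some e =>
          by_cases he : e ∈ J
          · simp [A, he, ho.1 e he]
          · simp [A, he]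
      · simp only [Option.elim_some]
        exact (det_ne_zero_iff r σ _ _).2 ho.2
    · intro ρ hρ
      simp only [Finset.coe_filter, Set.mem_ofPred_eq, Fintype.mem_piFinset] at hρ
      funext i
      cases i with
      | none =>
        have := hρ.1 none
        simp only [A, Option.elim_none, Finset.mem_singleton] at this
        rw [this]; rfl
      | some e => rfl
    · intro o _
      rfl
  rw [hcard]
  generalize (Finset.univ.filter fun o : E → Bool => (∀ e ∈ J, o e = c e) ∧
        Conn (x.log o).ini x.lab).card = N
  rw [Ne, ZMod.natCast_eq_zero_iff, ← Nat.not_even_iff_odd, even_iff_two_dvd]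

end Pool.Agent.N819.LT
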